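import Pool.Agent.H5.OR.Targets3

/-!
# Board ors_modules, row NB: normal form of the relator
-/

set_option autoImplicit false

open scoped Classical

namespace Pool.Agent.H99.ORS

open ORg

theorem nb_iso {X Y : Type} (A : Bool → Type) (α : FreeGroup Y ≃* FreeGroup (A true))
    (β : FreeGroup X ≃* FreeGroup (A false)) :
    ∃ θ : FreeGroup (X ⊕ Y) ≃* FreeGroup ((Σ i, A i) ⊕ Empty),
      (∀ x : FreeGroup X, θ (FreeGroup.map Sum.inl x) =
        FreeGroup.map (fun z => (Sum.inl ⟨false, z⟩ : (Σ i, A i) ⊕ Empty)) (β x)) ∧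
      ∀ y : FreeGroup Y, θ (FreeGroup.map Sum.inr y) =
        FreeGroup.map (fun z => (Sum.inl ⟨true, z⟩ : (Σ i, A i) ⊕ Empty)) (α y) := by
  let F : FreeGroup (X ⊕ Y) →* FreeGroup ((Σ i, A i) ⊕ Empty) :=
    FreeGroup.lift (Sum.elim
      (fun x => FreeGroup.map (fun z => (Sum.inl ⟨false, z⟩ : (Σ i, A i) ⊕ Empty))
        (β (FreeGroup.of x)))
      (fun y => FreeGroup.map (fun z => (Sum.inl ⟨true, z⟩ : (Σ i, A i) ⊕ Empty))
        (α (FreeGroup.of y))))
  let G : FreeGroup ((Σ i, A i) ⊕ Empty) →* FreeGroup (X ⊕ Y) :=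
    FreeGroup.lift (Sum.elim
      (fun s : (Σ i, A i) => match s with
        | ⟨false, z⟩ => FreeGroup.map (Sum.inl : X → X ⊕ Y) (β.symm (FreeGroup.of z))
        | ⟨true, z⟩ => FreeGroup.map (Sum.inr : Y → X ⊕ Y) (α.symm (FreeGroup.of z)))
      (fun e => Empty.elim e))
  have hF1 : F.comp (FreeGroup.map Sum.inl) =
      (FreeGroup.map (fun z => (Sum.inl ⟨false, z⟩ : (Σ i, A i) ⊕ Empty))).comp
        β.toMonoidHom := by
    apply FreeGroup.ext_hom
    intro x
    simp [F]
  have hF2 : F.comp (FreeGroup.map Sum.inr) =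
      (FreeGroup.map (fun z => (Sum.inl ⟨true, z⟩ : (Σ i, A i) ⊕ Empty))).comp
        α.toMonoidHom := by
    apply FreeGroup.ext_hom
    intro x
    simp [F]
  have hG1 : G.comp (FreeGroup.map (fun z => (Sum.inl ⟨false, z⟩ : (Σ i, A i) ⊕ Empty))) =
      (FreeGroup.map Sum.inl).comp β.symm.toMonoidHom := by
    apply FreeGroup.ext_hom
    intro x
    simp [G]
  have hG2 : G.comp (FreeGroup.map (fun z => (Sum.inl ⟨true, z⟩ : (Σ i, A i) ⊕ Empty))) =
      (FreeGroup.map Sum.inr).comp α.symm.toMonoidHom := by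
    apply FreeGroup.ext_hom
    intro x
    simp [G]
  have eF1 := fun x => DFunLike.congr_fun hF1 x
  have eF2 := fun x => DFunLike.congr_fun hF2 x
  have eG1 := fun x => DFunLike.congr_fun hG1 x
  have eG2 := fun x => DFunLike.congr_fun hG2 x
  simp only [MonoidHom.comp_apply, MulEquiv.toMonoidHom_eq_coe, MonoidHom.coe_coe] at eF1 eF2 eG1 eG2
  have hGF : G.comp F = MonoidHom.id _ := by
    apply FreeGroup.ext_hom
    rintro (x | y)
    · have h1 : (FreeGroup.of (Sum.inl x) : FreeGroup (X ⊕ Y)) =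
          FreeGroup.map Sum.inl (FreeGroup.of x) := by simp
      rw [MonoidHom.comp_apply, h1, eF1, eG1, MulEquiv.symm_apply_apply, MonoidHom.id_apply]
    · have h1 : (FreeGroup.of (Sum.inr y) : FreeGroup (X ⊕ Y)) =
          FreeGroup.map Sum.inr (FreeGroup.of y) := by simp
      rw [MonoidHom.comp_apply, h1, eF2, eG2, MulEquiv.symm_apply_apply, MonoidHom.id_apply]
  have hFG : F.comp G = MonoidHom.id _ := by
    apply FreeGroup.ext_hom
    rintro (⟨i, z⟩ | e)
    · cases i with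
      | false =>
        have h1 : (FreeGroup.of (Sum.inl ⟨false, z⟩) : FreeGroup ((Σ i, A i) ⊕ Empty)) =
            FreeGroup.map (fun z => (Sum.inl ⟨false, z⟩ : (Σ i, A i) ⊕ Empty))
              (FreeGroup.of z) := by simp
        rw [MonoidHom.comp_apply, h1, eG1, eF1, MulEquiv.apply_symm_apply, MonoidHom.id_apply]
      | true =>
        have h1 : (FreeGroup.of (Sum.inl ⟨true, z⟩) : FreeGroup ((Σ i, A i) ⊕ Empty)) =
            FreeGroup.map (fun z => (Sum.inl ⟨true, z⟩ : (Σ i, A i) ⊕ Empty))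
              (FreeGroup.of z) := by simp
        rw [MonoidHom.comp_apply, h1, eG2, eF2, MulEquiv.apply_symm_apply, MonoidHom.id_apply]
    · exact e.elim
  exact ⟨MonoidHom.toMulEquiv F G hGF hFG, eF1, eF2⟩

theorem pf_NB (LN : T_LN) : T_NB := by
  intro X Y _ _ v w p q hv hw
  obtain ⟨Xt, Zt, fXt, fZt, α, ut, k, hk, hαv, hut, hwt⟩ := LN Y v hv
  obtain ⟨Xf, Zf, fXf, fZf, β, uf, j, hj, hβw, huf, hwf⟩ := LN X w hw
  let X1 : Bool → Type := fun i => Bool.rec Xf Xt i
  let Z1 : Bool → Type := fun i => Bool.rec Zf Zt i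
  let u : ∀ i, FreeGroup (X1 i) := fun i => match i with
    | false => uf
    | true => ut
  obtain ⟨θ, h1, h2⟩ := nb_iso (fun i => X1 i ⊕ Z1 i) α β
  refine ⟨k, j, X1, Z1, ?_, ?_, u, θ, hk, hj, ?_, ?_, ?_⟩
  · intro i
    cases i with
    | false => exact fXf
    | true => exact fXt
  · intro i
    cases i with
    | false => exact fZf
    | true => exact fZt
  · intro i
    cases i with
    | false => exact huf
    | true => exact hut
  · intro i
    cases i with
    | false => exact hwf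
    | true => exact hwt
  · have e1 : subW (Y := Empty) (X := fun i => X1 i ⊕ Z1 i) (fun i => fl (u i))
        (FreeGroup.of (Sum.inl true)) = FreeGroup.map
          (fun z => (Sum.inl ⟨true, z⟩ : (Σ i, X1 i ⊕ Z1 i) ⊕ Empty)) (fl ut) := by
      rw [subW, FreeGroup.lift_apply_of]
    have e2 : subW (Y := Empty) (X := fun i => X1 i ⊕ Z1 i) (fun i => fl (u i))
        (FreeGroup.of (Sum.inl false)) = FreeGroup.map
          (fun z => (Sum.inl ⟨false, z⟩ : (Σ i, X1 i ⊕ Z1 i) ⊕ Empty)) (fl uf) := by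
      rw [subW, FreeGroup.lift_apply_of]
    have e3 : θ (FreeGroup.map Sum.inr v) = (FreeGroup.map
        (fun z => (Sum.inl ⟨true, z⟩ : (Σ i, X1 i ⊕ Z1 i) ⊕ Empty)) (fl ut)) ^ k := by
      rw [h2, hαv, map_pow]
    have e4 : θ (FreeGroup.map Sum.inl w) = (FreeGroup.map
        (fun z => (Sum.inl ⟨false, z⟩ : (Σ i, X1 i ⊕ Z1 i) ⊕ Empty)) (fl uf)) ^ j := by
      rw [h1, hβw, map_pow]
    rw [rl, relK, map_mul, map_mul, map_mul, map_inv, map_inv, map_zpow, map_zpow, e3, e4,
      map_mul, map_mul, map_mul, map_inv, map_inv, map_zpow, map_zpow, map_pow, e1, e2,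
      zpow_mul, zpow_mul, zpow_natCast]

end Pool.Agent.H99.ORS
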