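import Pool.Agent.H5.OR.Targets3

/-!
# Board ors_modules, row RT: roots in free groups
-/

set_option autoImplicit false

open scoped Classical

namespace Pool.Agent.H99.ORS

open ORg

theorem rt_len {Y : Type} (u : FreeGroup Y) (hu : u ≠ 1) (k : ℕ) :
    k ≤ (u ^ k).toWord.length := by
  rcases Nat.eq_zero_or_pos k with hk | hk
  · simp [hk]
  have h1 : (FreeGroup.reduceCyclically u.toWord).length ≠ 0 := by
    intro h
    have h2 := FreeGroup.reduceCyclically.conj_conjugator_reduceCyclically u.toWord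
    rw [List.length_eq_zero_iff] at h
    rw [h] at h2
    apply hu
    have h3 : u = FreeGroup.mk u.toWord := FreeGroup.mk_toWord.symm
    rw [h3, ← h2]
    rw [List.append_nil, ← FreeGroup.mul_mk, ← FreeGroup.inv_mk, mul_inv_cancel]
  rw [FreeGroup.toWord_pow, FreeGroup.reduceCyclically.reduce_flatten_replicate
    FreeGroup.isReduced_toWord, if_neg hk.ne']
  simp only [List.length_append, List.length_flatten, List.map_replicate, List.sum_replicate,
    smul_eq_mul]
  have h4 : k ≤ k * (FreeGroup.reduceCyclically u.toWord).length :=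
    Nat.le_mul_of_pos_right _ (Nat.pos_of_ne_zero h1)
  omega

theorem pf_RT : T_RT := by
  intro Y v hv
  let P : ℕ → Prop := fun k => ∃ u : FreeGroup Y, u ^ k = v
  have hb : ∀ k, P k → k ≤ v.toWord.length := by
    rintro k ⟨u, hu⟩
    rcases Nat.eq_zero_or_pos k with hk | hk
    · omega
    have h1 : u ≠ 1 := by
      rintro rfl
      exact hv (by rw [← hu, one_pow])
    rw [← hu]
    exact rt_len u h1 k
  have h1 : P 1 := ⟨v, pow_one v⟩
  obtain ⟨m, ⟨u, hu⟩, hm1, hm⟩ : ∃ m : ℕ, P m ∧ 1 ≤ m ∧ ∀ n, P n → n ≤ m :=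
    ⟨Nat.findGreatest P v.toWord.length, Nat.findGreatest_spec (hb 1 h1) h1,
      Nat.le_findGreatest (hb 1 h1) h1, fun n hn => Nat.le_findGreatest (hb n hn) hn⟩
  refine ⟨u, m, hm1, ?_, hu⟩
  intro s j hs
  by_contra hj
  rw [not_or] at hj
  rcases lt_trichotomy j 0 with h0 | h0 | h0
  · have h2 : P (j.natAbs * m) := by
      refine ⟨s⁻¹, ?_⟩
      rw [pow_mul, ← hu, ← hs]
      congr 1
      rw [← zpow_natCast, inv_zpow', Int.ofNat_natAbs_of_nonpos h0.le, neg_neg]
    have h3 := hm _ h2
    have h4 : 2 ≤ j.natAbs := by omega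
    nlinarith
  · rw [h0, zpow_zero] at hs
    apply hv
    rw [← hu, ← hs, one_pow]
  · have h2 : P (j.natAbs * m) := by
      refine ⟨s, ?_⟩
      rw [pow_mul, ← hu, ← hs]
      congr 1
      rw [← zpow_natCast, Int.natAbs_of_nonneg h0.le]
    have h3 := hm _ h2
    have h4 : 2 ≤ j.natAbs := by omega
    nlinarith

end Pool.Agent.H99.ORS
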